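import Mathlib

set_option autoImplicit false

namespace Pool.Agent.Results.MP_ca0bb9_al.NotZp

open Subgroup commutatorElement

/-- the closure of the subgroup generated by all closed non-normal subgroups -/
def St (G : Type) [Group G] [TopologicalSpace G] [IsTopologicalGroup G] : Subgroup G :=
  (sSup {L : Subgroup G | IsClosed (L : Set G) ∧ ¬ L.Normal}).topologicalClosure

section
variable {G : Type} [Group G] [TopologicalSpace G] [IsTopologicalGroup G] [CompactSpace G]
  [TotallyDisconnectedSpace G] {p : ℕ}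

lemma sep {c : G} (h : ∀ N : OpenNormalSubgroup G, c ∈ N) : c = 1 := by
  by_contra e
  obtain ⟨N, hN⟩ := ProfiniteGrp.exist_openNormalSubgroup_sub_open_nhds_of_one (G := G) (U := {c}ᶜ)
    isOpen_compl_singleton (Ne.symm e)
  exact hN (h N) rfl

omit [IsTopologicalGroup G] [CompactSpace G] [TotallyDisconnectedSpace G] in
lemma red (hp : p.Prime) (hG : ∀ N : OpenNormalSubgroup G, IsPGroup p (G ⧸ N.toSubgroup)) (N : OpenNormalSubgroup G)
    {c : G} {n : ℤ} {m : ℕ} (h : ¬ (p ^ m : ℤ) ∣ n) (e : c ^ n ∈ N) : c ^ p ^ m ∈ N := by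
  have := Fact.mk hp
  obtain ⟨k, hk⟩ := IsPGroup.iff_orderOf.1 (hG N) (c : G ⧸ N.toSubgroup)
  have d := orderOf_dvd_iff_zpow_eq_one.2 ((QuotientGroup.mk_zpow ..).symm.trans ((QuotientGroup.eq_one_iff _).2 e))
  refine (QuotientGroup.eq_one_iff (N := N.toSubgroup) _).1 ((QuotientGroup.mk_pow ..).trans
    (orderOf_dvd_iff_pow_eq_one.1 (hk ▸ pow_dvd_pow p (not_lt.1 fun l => h ?_))))
  exact (pow_dvd_pow _ l.le).trans (by exact_mod_cast hk ▸ d)

lemma tors [T2Space G] (hp : p.Prime) (hG : ∀ N : OpenNormalSubgroup G, IsPGroup p (G ⧸ N.toSubgroup)) {x y : G}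
    (hx : x ∉ St G) (hy : y ∉ St G) : ∃ m, ⁅x, y⁆ ^ p ^ m = 1 := by
  have nm : ∀ z ∉ St G, (zpowers z).topologicalClosure.Normal := fun z hz => by
    by_contra c
    exact hz (le_topologicalClosure _ (le_sSup (s := {L : Subgroup G | IsClosed (L : Set G) ∧ ¬ L.Normal})
      ⟨isClosed_topologicalClosure _, c⟩ (le_topologicalClosure _ (mem_zpowers z))))
  have cm : ∀ z c : G, c ∈ (zpowers z).topologicalClosure → z * c = c * z := fun z c h =>
    closure_minimal (t := {c | z * c = c * z}) (by rintro _ ⟨n, rfl⟩; exact (Commute.self_zpow z n).eq)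
      (isClosed_eq (by fun_prop) (by fun_prop)) h
  have mx : ⁅x, y⁆ ∈ (zpowers x).topologicalClosure := by
    rw [commutatorElement_def, mul_assoc, mul_assoc, ← mul_assoc y]
    exact mul_mem (le_topologicalClosure _ (mem_zpowers x))
      ((nm x hx).conj_mem _ (inv_mem (le_topologicalClosure _ (mem_zpowers x))) _)
  have my : ⁅x, y⁆ ∈ (zpowers y).topologicalClosure :=
    mul_mem ((nm y hy).conj_mem _ (le_topologicalClosure _ (mem_zpowers y)) _)
      (inv_mem (le_topologicalClosure _ (mem_zpowers y)))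
  have pw : ∀ n : ℤ, ⁅x ^ n, y⁆ = ⁅x, y⁆ ^ n := fun n => by
    have : y * x⁻¹ * y⁻¹ = x⁻¹ * ⁅x, y⁆ := by group
    rw [commutatorElement_def, mul_assoc, mul_assoc, ← mul_assoc y, ← inv_zpow, ← conj_zpow, this,
      (Commute.inv_left (cm x _ mx)).mul_zpow, inv_zpow, mul_inv_cancel_left]
  by_cases c1 : ⁅x, y⁆ = 1
  · exact ⟨0, by simp [c1]⟩
  obtain ⟨N, hN⟩ := not_forall.1 (mt sep c1)
  obtain ⟨m, hm⟩ := hG N x
  refine ⟨m, sep fun M => ?_⟩
  obtain ⟨_, ⟨a, b⟩, n, rfl⟩ := mem_closure_iff.1 mx ((N : Set G)ᶜ ∩ (fun a => ⁅a, y⁆) ⁻¹' M)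
    ((N.toOpenSubgroup.isClosed.isOpen_compl).inter (M.isOpen.preimage (by
      simp only [commutatorElement_def]; fun_prop)))
    ⟨hN, by rw [Set.mem_preimage, commutatorElement_eq_one_iff_mul_comm.2 (cm y _ my).symm]; exact M.one_mem⟩
  refine red hp hG M (n := n) (fun ⟨k, e⟩ => a ?_) (pw n ▸ b)
  show x ^ n ∈ N
  rw [e, zpow_mul]
  exact zpow_mem (by exact_mod_cast (QuotientGroup.eq_one_iff (N := N.toSubgroup) _).1 hm) k

end

theorem result (p : ℕ) [hp : Fact p.Prime] (G : Type) [Group G] [TopologicalSpace G] [IsTopologicalGroup G]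
    [CompactSpace G] [T2Space G] [TotallyDisconnectedSpace G]
    (hG : ∀ N : OpenNormalSubgroup G, IsPGroup p (G ⧸ N.toSubgroup)) (h : St G ≠ ⊤) :
    IsEmpty ((commutator G).topologicalClosure ≃* Multiplicative ℤ_[p]) := by
  refine ⟨fun φ => ?_⟩
  have c : ∀ x ∉ St G, ∀ y ∉ St G, x * y = y * x := fun x hx y hy => by
    obtain ⟨m, hm⟩ := tors hp.1 hG hx hy
    let c : (commutator G).topologicalClosure :=
      ⟨⁅x, y⁆, le_topologicalClosure _ (commutator_mem_commutator trivial trivial)⟩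
    have : (φ c) ^ p ^ m = 1 := by rw [← map_pow, show c ^ p ^ m = 1 from Subtype.ext hm, map_one]
    have := (pow_eq_one_iff_left (pow_pos hp.1.pos m).ne').1 this
    exact commutatorElement_eq_one_iff_mul_comm.1 (congrArg Subtype.val (φ.map_eq_one_iff.1 this))
  obtain ⟨z, hz⟩ := not_forall.1 (mt (eq_top_iff' _).2 h)
  have d : ∀ x, ∀ y ∉ St G, x * y = y * x := fun x y hy => by
    by_cases hx : x ∈ St G
    · have := c (x * z) (fun m => hz ((mul_mem_cancel_left hx).1 m)) y hy
      rw [mul_assoc, c z hz y hy, ← mul_assoc, ← mul_assoc] at this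
      exact mul_right_cancel this
    · exact c x hx y hy
  have e : ∀ x y : G, x * y = y * x := fun x y => by
    by_cases hy : y ∈ St G
    · have := d x (y * z) fun m => hz ((mul_mem_cancel_left hy).1 m)
      rw [mul_assoc, ← d x z hz, ← mul_assoc, ← mul_assoc] at this
      exact mul_right_cancel this
    · exact d x y hy
  have b : (commutator G).topologicalClosure ≤ ⊥ := topologicalClosure_minimal _
    (commutator_le.2 fun x _ y _ => commutatorElement_eq_one_iff_mul_comm.2 (e x y)) isClosed_singleton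
  have := congrArg φ (show φ.symm (.ofAdd 1) = 1 from Subtype.ext (b (φ.symm (.ofAdd 1)).2))
  simp at this

end Pool.Agent.Results.MP_ca0bb9_al.NotZp
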